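import Pool.Agent.H32.SQ.B4

set_option autoImplicit false

/-!
A class of bipartite graphs that are isolated in graph Ramsey theory, for every number of colours.

Let `a ≥ 1` and let `T` be a finite connected subgraph of the graph `hubGraph a M`, a complete bipartite graph with sides of
`a` and `M` vertices with a pendant edge added at each of the `M` vertices of the second side. Suppose that `T` is not
contained in a complete bipartite graph with `2 a - 1` vertices on one side (that is, both sides of `T` have at
least `2 a` vertices), or that `T` is a star. If a finite connected graph `H` is `q`-equivalent to `T` for one `q ≥ 1`, then `H`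
is isomorphic to `T`. The case `a = 1` says that all stars, and all stars some of whose edges are subdivided once, are
isolated. Every connected bipartite graph with a side of `a` vertices gives a graph of the class if `2 a` paths of
length two are attached at one vertex of this side.

Proof (`T` not a star). Let `s + 1` be the number of vertices of the smaller side of `T`, `2 a ≤ s + 1`. Complete
bipartite graphs with `q s` vertices on one side show that `H` is not contained in a complete bipartite graph with
`s` vertices on one side. For a graph `B` let `G(B)` consist of many disjoint copies of `B` and of `(q - 1) s` further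
vertices (hubs), joined to all vertices of the copies. `G(T) → (T)_q`: by the pigeonhole principle we may assume that all copies
are coloured in the same way. Each colour appears at most `s` times between the hubs and a vertex `x`, so that at most one
colour appears less than `a` times there. An edge of `T` at `x` must have this colour, since otherwise there is a
monochromatic copy of `hubGraph a M`. So all edges of `T` have the same colour. Colouring the edges at
`s` hubs each with a colour of their own we see that `H` is a subgraph of `T`. The same argument for `G(H)` shows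
that `T` is a subgraph of `H`.
-/

namespace Pool.Agent.Results.MP_b356f0_co.BipartiteIsolation

/-- `G → (H)_q`: every symmetric colouring with `q` colours has a monochromatic copy of `H`. -/
def Arrows {V W : Type} (G : SimpleGraph V) (H : SimpleGraph W) (q : ℕ) : Prop :=
  ∀ c : V → V → Fin q, (∀ a b : V, c a b = c b a) →
    ∃ f : W → V, Function.Injective f ∧ (∀ u v : W, H.Adj u v → G.Adj (f u) (f v)) ∧
      ∃ i : Fin q, ∀ u v : W, H.Adj u v → c (f u) (f v) = i

/-- `q`-equivalence of two graphs. -/
def Equivalent {W W' : Type} (q : ℕ) (H : SimpleGraph W) (H' : SimpleGraph W') : Prop :=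
  ∀ (n : ℕ) (G : SimpleGraph (Fin n)), Arrows G H q ↔ Arrows G H' q

/-- `H` is isomorphic to a (not necessarily induced) subgraph of `B`. -/
def ContainedIn {W V : Type} (H : SimpleGraph W) (B : SimpleGraph V) : Prop :=
  ∃ f : W → V, Function.Injective f ∧ ∀ u v : W, H.Adj u v → B.Adj (f u) (f v)

/-- The complete bipartite graph with `a` vertices `inl u` and `M` vertices `inr (j, false)`, with one pendant edge, from
`inr (j, false)` to `inr (j, true)`, at each of the `M` vertices of the second side. -/
def hubGraph (a M : ℕ) : SimpleGraph (Fin a ⊕ (Fin M × Bool)) :=
  SimpleGraph.fromRel (fun x y =>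
    (∃ u j, x = Sum.inl u ∧ y = Sum.inr (j, false)) ∨
      ∃ j, x = Sum.inr (j, false) ∧ y = Sum.inr (j, true))

/-- `T` is bipartite with a side `S` of at most `s` vertices: every edge has exactly one end in `S`. -/
def HasSide {V : Type} (T : SimpleGraph V) (s : ℕ) : Prop :=
  ∃ S : Finset V, S.card ≤ s ∧ ∀ u v : V, T.Adj u v → (u ∈ S ↔ v ∉ S)

theorem kp_of_hubGraph (a M : ℕ) (x y : Fin a ⊕ (Fin M × Bool)) (h : (hubGraph a M).Adj x y) :
    (Pool.Agent.H32.SQ.kp a M).Adj x y := by
  unfold hubGraph at h
  rw [SimpleGraph.fromRel_adj] at h
  obtain ⟨-, h⟩ := h
  rcases h with (⟨u, j, rfl, rfl⟩ | ⟨j, rfl, rfl⟩) | (⟨u, j, rfl, rfl⟩ | ⟨j, rfl, rfl⟩)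
  · rfl
  · exact ⟨rfl, by simp⟩
  · rfl
  · exact ⟨rfl, by simp⟩

/-- Let `q, a ≥ 1`, let `T` be a finite connected subgraph of `hubGraph a M` which has no side of at most `2 a - 1`
vertices, or which has a side of at most one vertex (a star), and let `H` be a finite connected graph. If `T` and
`H` are `q`-equivalent, then they are isomorphic. -/
theorem result : ∀ (q a M : ℕ), 1 ≤ q → 1 ≤ a → ∀ (V W : Type) [Fintype V] [Fintype W]
    (T : SimpleGraph V) (H : SimpleGraph W), T.Connected → H.Connected →
    ContainedIn T (hubGraph a M) → (¬ HasSide T (2 * a - 1) ∨ HasSide T 1) → Equivalent q T H →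
    Nonempty (T ≃g H) := by
  intro q a M hq ha V W _ _ T H hT hH hTM hside h
  have hemb : Pool.Agent.H32.SQ.Emb T (Pool.Agent.H32.SQ.kp a M) := by
    obtain ⟨f, hf, hf'⟩ := hTM
    exact ⟨f, hf, fun u v huv => kp_of_hubGraph a M _ _ (hf' u v huv)⟩
  exact Pool.Agent.H32.SQ.isolated' q a M hq ha V W T H hT hH hemb hside h

end Pool.Agent.Results.MP_b356f0_co.BipartiteIsolation
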