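import Pool.Agent.H65.RK.FinM
import Pool.Agent.H65.RK.Acy

set_option autoImplicit false

/-!
Isolation in multicolour graph Ramsey theory.

Let `B` be a connected graph of chromatic number `p + 1`, where `p ≥ 2`, which has maximum degree
at most `2 * p - 1`, or more generally whose vertex set splits into `p` parts each inducing a graph
of maximum degree at most one (or a scheme with forests as described in the theorem). Then a
connected graph which is `q`-equivalent to `B` for one `q ≥ 1` is isomorphic to `B`. In particular
a connected graph which is 3-equivalent to such a graph is also 2-equivalent to it.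
-/

namespace Pool.Agent.Results.MP_b356f0_co.Isolation

/-- `G → (H)_q`: every symmetric colouring with `q` colours has a monochromatic copy of `H`. -/
def Arrows {V W : Type} (G : SimpleGraph V) (H : SimpleGraph W) (q : ℕ) : Prop :=
  ∀ c : V → V → Fin q, (∀ a b : V, c a b = c b a) →
    ∃ f : W → V, Function.Injective f ∧ (∀ u v : W, H.Adj u v → G.Adj (f u) (f v)) ∧
      ∃ i : Fin q, ∀ u v : W, H.Adj u v → c (f u) (f v) = i

/-- `q`-equivalence of two graphs. -/
def Equivalent {W W' : Type} (q : ℕ) (H : SimpleGraph W) (H' : SimpleGraph W') : Prop :=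
  ∀ (n : ℕ) (G : SimpleGraph (Fin n)), Arrows G H q ↔ Arrows G H' q

/-- 2-connected graphs: at least three vertices, connected, and connected after the removal of any
vertex. -/
def TwoConnected {V : Type} [Fintype V] (B : SimpleGraph V) : Prop :=
  3 ≤ Fintype.card V ∧ B.Connected ∧ ∀ v : V, (B.induce ({v}ᶜ : Set V)).Connected

/-- The graph induced on `S` has maximum degree at most one. -/
def MaxDegOneOn {V : Type} (B : SimpleGraph V) (S : Set V) : Prop :=
  ∀ u ∈ S, ∀ v ∈ S, ∀ v' ∈ S, B.Adj u v → B.Adj u v' → v = v'

/-- The kinds of parts which are considered. -/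
inductive Kind where
  | independent | degreeOne | forest

/-- The set `S` is a part of the given kind: independent, inducing a graph of maximum degree at
most one, inducing a forest. -/
def IsPart {V : Type} (B : SimpleGraph V) (t : Kind) (S : Set V) : Prop :=
  match t with
  | Kind.independent => ∀ u ∈ S, ∀ v ∈ S, ¬ B.Adj u v
  | Kind.degreeOne => MaxDegOneOn B S
  | Kind.forest => (B.induce S).IsAcyclic

/-- The vertex set of `B` splits into parts of the given kinds. -/
def Splits {V : Type} {p : ℕ} (B : SimpleGraph V) (k : Fin p → Kind) : Prop :=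
  ∃ col : V → Fin p, ∀ i : Fin p, IsPart B (k i) {v | col v = i}

def conv : Kind → Pool.Agent.H65.RI.Kind
  | Kind.independent => Pool.Agent.H65.RI.Kind.I
  | Kind.degreeOne => Pool.Agent.H65.RI.Kind.D
  | Kind.forest => Pool.Agent.H65.RI.Kind.F

theorem isPart_iff {V : Type} [Fintype V] (B : SimpleGraph V) (t : Kind) (S : Set V) :
    IsPart B t S ↔ Pool.Agent.H65.RI.KOn (conv t) B S := by
  cases t with
  | independent => exact Iff.rfl
  | degreeOne => exact Iff.rfl
  | forest => exact ⟨Pool.Agent.H65.RI.forestOn_of_acyclic B S,
      Pool.Agent.H65.RI.acyclic_of_forestOn B S⟩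

theorem splits_iff {V : Type} [Fintype V] {p : ℕ} (B : SimpleGraph V) (k : Fin p → Kind) :
    Splits B k ↔ Pool.Agent.H65.RI.FitsK B (fun i => conv (k i)) := by
  constructor
  · rintro ⟨col, h⟩
    exact ⟨col, fun i => (isPart_iff B (k i) _).mp (h i)⟩
  · rintro ⟨col, h⟩
    exact ⟨col, fun i => (isPart_iff B (k i) _).mpr (h i)⟩

theorem result : ∀ (V W : Type) [Fintype V] [Fintype W] (B : SimpleGraph V) (H : SimpleGraph W)
    (p : ℕ), 2 ≤ p → B.Connected → ¬ B.Colorable p → B.Colorable (p + 1) →
    ((∀ v : V, (B.neighborSet v).ncard ≤ 2 * p - 1) ∨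
      (∃ col : V → Fin p, ∀ i : Fin p, MaxDegOneOn B {v | col v = i}) ∨
      ∃ (k : Fin p → Kind) (i : Fin p), k i = Kind.degreeOne ∧ Splits B k ∧
        ¬ Splits B (Function.update k i Kind.independent) ∧
        ((∀ j, k j ≠ Kind.forest) ∨ (∀ j, j ≠ i → k j ≠ Kind.degreeOne) ∨ TwoConnected B)) →
    H.Connected → ∀ q : ℕ, 1 ≤ q → Equivalent q B H → Nonempty (B ≃g H) := by
  classical
  intro V W _ _ B H p hp hB nb hcol hS hH q hq heq
  rcases hS with h | ⟨col, h⟩ | ⟨k, i, hi, h1, h0, hk⟩
  · obtain ⟨col, hc⟩ := Pool.Agent.H65.RI.lovasz_part B p (by omega) (by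
      intro v
      have h1 := h v
      have h2 : (B.neighborSet v) =
          ((Finset.univ.filter (fun w => B.Adj v w) : Finset V) : Set V) := by
        ext w
        simp
      rw [h2, Set.ncard_coe_finset] at h1
      convert h1 using 3)
    exact Pool.Agent.H65.RI.isolation_part B hB p hp hcol nb col hc H hH q hq heq
  · exact Pool.Agent.H65.RI.isolation_part B hB p hp hcol nb col h H hH q hq heq
  · refine Pool.Agent.H65.RI.isolation_kinds B hB p hp hcol nb (fun j => conv (k j)) i ?_
      ((splits_iff B k).mp h1) ?_ ?_ H hH q hq heq
    · rw [hi]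
      rfl
    · intro hcon
      apply h0
      rw [splits_iff]
      have : (fun j => conv (Function.update k i Kind.independent j)) =
          Function.update (fun j => conv (k j)) i Pool.Agent.H65.RI.Kind.I := by
        funext j
        by_cases hj : j = i
        · subst hj
          rw [Function.update_self, Function.update_self]
          rfl
        · rw [Function.update_of_ne hj, Function.update_of_ne hj]
      rw [this]
      exact hcon
    · rcases hk with hk | hk | hk
      · refine Or.inl fun j => ?_
        have := hk j
        cases h : k j with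
        | independent => simp [conv]
        | degreeOne => simp [conv]
        | forest => exact absurd h this
      · refine Or.inr (Or.inl fun j hj => ?_)
        have := hk j hj
        cases h : k j with
        | independent => simp [conv]
        | degreeOne => exact absurd h this
        | forest => simp [conv]
      · exact Or.inr (Or.inr (Pool.Agent.H65.RI.noSep_of_twoConn B hk))

end Pool.Agent.Results.MP_b356f0_co.Isolation
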