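import Pool.Agent.H32.IP.MN

set_option autoImplicit false

/-!
Paths are isolated in graph Ramsey theory, for every number of colours.

If a finite connected graph `H` is `q`-equivalent to a path for one `q ≥ 1`, then `H` is isomorphic to this path. In
particular Q1 holds for every pair of connected graphs one of which is a path.

Proof. Take a finite quotient of the free group on `q` generators in which no short reduced word is trivial, and its
Cayley graph. It has `q |Γ|` edges, so in each colouring one colour class contains a (long) cycle, hence the path; the
colouring by generators has long cycles as colour classes, so that `H` is a path. Two paths are distinguished by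
`(q - 1) ⌊(k - 1) / 2⌋` vertices joined to all vertices of many disjoint copies of the complete graph on `k` vertices: by the
Erdős-Gallai theorem each colouring has a monochromatic path on `k` vertices, but there is a colouring without
monochromatic path on `k + 1` vertices.
-/

namespace Pool.Agent.Results.MP_b356f0_co.PathsIsolated

/-- `G → (H)_q`: every symmetric colouring with `q` colours has a monochromatic copy of `H`. -/
def Arrows {V W : Type} (G : SimpleGraph V) (H : SimpleGraph W) (q : ℕ) : Prop :=
  ∀ c : V → V → Fin q, (∀ a b : V, c a b = c b a) →
    ∃ f : W → V, Function.Injective f ∧ (∀ u v : W, H.Adj u v → G.Adj (f u) (f v)) ∧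
      ∃ i : Fin q, ∀ u v : W, H.Adj u v → c (f u) (f v) = i

/-- `q`-equivalence of two graphs. -/
def Equivalent {W W' : Type} (q : ℕ) (H : SimpleGraph W) (H' : SimpleGraph W') : Prop :=
  ∀ (n : ℕ) (G : SimpleGraph (Fin n)), Arrows G H q ↔ Arrows G H' q

/-- Let `P` be the path with `k ≥ 1` vertices, let `q ≥ 1`, and let `H` be a finite connected graph. If `P` and `H` are
`q`-equivalent, then they are isomorphic. -/
theorem result : ∀ (k q : ℕ), 1 ≤ k → 1 ≤ q → ∀ (W : Type) [Fintype W] (H : SimpleGraph W),
    H.Connected → Equivalent q (SimpleGraph.pathGraph k) H →
    Nonempty (SimpleGraph.pathGraph k ≃g H) := by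
  intro k q hk hq W _ H hc h
  obtain ⟨m, rfl⟩ : ∃ m, k = m + 1 := ⟨k - 1, by omega⟩
  exact Pool.Agent.H32.IP.isolated m q hq W H hc h

end Pool.Agent.Results.MP_b356f0_co.PathsIsolated
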