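import Pool.Agent.H65.RK.FinM
import Pool.Agent.H65.RK.Acy

set_option autoImplicit false

/-!
The 2-connected subgraphs of a graph of small vertex arboricity are an invariant of multicolour
Ramsey equivalence.

Let `B` be a finite graph (connected or not) which is not `p`-colourable, where `p ≥ 2`, and whose
vertex set splits into `p` parts inducing forests. If `H` is `q`-equivalent to `B` for one `q ≥ 1`,
then `B` and `H` contain the same 2-connected graphs; if both are 2-connected they are isomorphic.
-/

namespace Pool.Agent.Results.MP_b356f0_co.SameBlocks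

/-- `G → (H)_q`: every symmetric colouring with `q` colours has a monochromatic copy of `H`. -/
def Arrows {V W : Type} (G : SimpleGraph V) (H : SimpleGraph W) (q : ℕ) : Prop :=
  ∀ c : V → V → Fin q, (∀ a b : V, c a b = c b a) →
    ∃ f : W → V, Function.Injective f ∧ (∀ u v : W, H.Adj u v → G.Adj (f u) (f v)) ∧
      ∃ i : Fin q, ∀ u v : W, H.Adj u v → c (f u) (f v) = i

/-- `q`-equivalence of two graphs. -/
def Equivalent {W W' : Type} (q : ℕ) (H : SimpleGraph W) (H' : SimpleGraph W') : Prop :=
  ∀ (n : ℕ) (G : SimpleGraph (Fin n)), Arrows G H q ↔ Arrows G H' q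

/-- 2-connected graphs: at least three vertices, connected, and connected after the removal of any
vertex. -/
def TwoConnected {V : Type} [Fintype V] (B : SimpleGraph V) : Prop :=
  3 ≤ Fintype.card V ∧ B.Connected ∧ ∀ v : V, (B.induce ({v}ᶜ : Set V)).Connected

/-- `L` is isomorphic to a subgraph of `B` (not necessarily induced). -/
def ContainedIn {V W : Type} (L : SimpleGraph V) (B : SimpleGraph W) : Prop :=
  ∃ f : V → W, Function.Injective f ∧ ∀ u v : V, L.Adj u v → B.Adj (f u) (f v)

theorem result : ∀ (V W : Type) [Fintype V] [Fintype W] (B : SimpleGraph V) (H : SimpleGraph W)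
    (p : ℕ), 2 ≤ p → ¬ B.Colorable p →
    (∃ col : V → Fin p, ∀ i : Fin p, (B.induce {v | col v = i}).IsAcyclic) →
    ∀ q : ℕ, 1 ≤ q → Equivalent q B H →
    (∀ (U : Type) [Fintype U] (L : SimpleGraph U), TwoConnected L →
      (ContainedIn L B ↔ ContainedIn L H)) ∧
    (TwoConnected B → TwoConnected H → Nonempty (B ≃g H)) := by
  classical
  intro V W _ _ B H p hp nb hX q hq heq
  obtain ⟨col, hc⟩ := hX
  have hF : Pool.Agent.H65.RI.FK B p :=
    ⟨col, fun i => Pool.Agent.H65.RI.forestOn_of_acyclic B _ (hc i)⟩
  have key : ∀ (U : Type) [Fintype U] (L : SimpleGraph U), TwoConnected L →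
      (ContainedIn L B ↔ ContainedIn L H) := by
    intro U _ L hL
    exact Pool.Agent.H65.RI.same_blocks B H p q hp hq heq nb hF L
      (Pool.Agent.H65.RI.noSep_of_twoConn L hL) (by have := hL.1; omega)
  refine ⟨key, fun hB hH => ?_⟩
  exact Pool.Agent.H65.RI.iso_of_sub B H
    ((key V B hB).mp ⟨id, Function.injective_id, fun _ _ h => h⟩)
    ((key W H hH).mpr ⟨id, Function.injective_id, fun _ _ h => h⟩)

end Pool.Agent.Results.MP_b356f0_co.SameBlocks
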